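import Pool.Agent.Q287.ISD.Defs

set_option autoImplicit false

namespace Q287.ISD

open MeasureTheory Set Filter Topology

/-- the uniform distribution on `(0,1)` -/
noncomputable abbrev lam : Measure ℝ := volume.restrict (Ioo (0 : ℝ) 1)

instance : IsProbabilityMeasure lam := ⟨by simp [lam]⟩

lemma mem_quant_set_bdd (μ : Measure ℝ) [IsProbabilityMeasure μ] {p : ℝ} (hp : 0 < p) :
    BddBelow {x : ℝ | p ≤ μ.real (Iic x)} := by
  have h := ProbabilityTheory.tendsto_cdf_atBot μ
  have h1 := h.eventually (gt_mem_nhds hp)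
  obtain ⟨M, hM⟩ := eventually_atBot.1 h1
  refine ⟨M, fun x hx => ?_⟩
  by_contra hlt
  push Not at hlt
  have := hM x hlt.le
  rw [ProbabilityTheory.cdf_eq_real] at this
  exact absurd hx (not_le.2 this)

lemma quant_set_nonempty (μ : Measure ℝ) [IsProbabilityMeasure μ] {p : ℝ} (hp : p < 1) :
    {x : ℝ | p ≤ μ.real (Iic x)}.Nonempty := by
  have h := ProbabilityTheory.tendsto_cdf_atTop μ
  have h1 := h.eventually (lt_mem_nhds hp)
  obtain ⟨M, hM⟩ := eventually_atTop.1 h1
  refine ⟨M, ?_⟩
  have := hM M le_rfl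
  rw [ProbabilityTheory.cdf_eq_real] at this
  exact this.le

/-- the Galois connection between the quantile function and the distribution function -/
lemma quantile_le_iff (μ : Measure ℝ) [IsProbabilityMeasure μ] {p : ℝ} (hp : 0 < p) (hp1 : p < 1)
    (x : ℝ) : quantile μ p ≤ x ↔ p ≤ μ.real (Iic x) := by
  constructor
  · intro h
    -- right-continuity
    have hrc := (ProbabilityTheory.cdf μ).right_continuous x
    have hmem : ∀ y, x < y → p ≤ ProbabilityTheory.cdf μ y := by
      intro y hy
      have h2 : quantile μ p < y := lt_of_le_of_lt h hy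
      obtain ⟨z, hz, hzy⟩ := exists_lt_of_csInf_lt (quant_set_nonempty μ hp1) h2
      have h3 : p ≤ μ.real (Iic z) := hz
      rw [ProbabilityTheory.cdf_eq_real]
      exact h3.trans (measureReal_mono (Iic_subset_Iic.2 hzy.le))
    rw [← ProbabilityTheory.cdf_eq_real]
    have h4 : Tendsto (ProbabilityTheory.cdf μ) (𝓝[>] x) (𝓝 (ProbabilityTheory.cdf μ x)) :=
      (hrc.mono Ioi_subset_Ici_self).tendsto
    exact ge_of_tendsto h4 (eventually_nhdsWithin_of_forall fun y hy => hmem y hy)
  · intro h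
    exact csInf_le (mem_quant_set_bdd μ hp) h

lemma quantile_monotoneOn (μ : Measure ℝ) [IsProbabilityMeasure μ] :
    MonotoneOn (quantile μ) (Ioo (0 : ℝ) 1) := by
  intro p hp q hq hpq
  rw [quantile_le_iff μ hp.1 hp.2]
  exact hpq.trans ((quantile_le_iff μ hq.1 hq.2 _).1 le_rfl)

lemma aemeasurable_quantile (μ : Measure ℝ) [IsProbabilityMeasure μ] :
    AEMeasurable (quantile μ) lam :=
  aemeasurable_restrict_of_monotoneOn measurableSet_Ioo (quantile_monotoneOn μ)

/-- the quantile function carries the uniform distribution to `μ` -/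
lemma map_quantile (μ : Measure ℝ) [IsProbabilityMeasure μ] : lam.map (quantile μ) = μ := by
  haveI : IsProbabilityMeasure (lam.map (quantile μ)) :=
    Measure.isProbabilityMeasure_map (aemeasurable_quantile μ)
  apply Measure.ext_of_Iic
  intro x
  rw [Measure.map_apply_of_aemeasurable (aemeasurable_quantile μ) measurableSet_Iic]
  have hF0 : 0 ≤ μ.real (Iic x) := measureReal_nonneg
  have hF1 : μ.real (Iic x) ≤ 1 := measureReal_le_one
  have e1 : lam (quantile μ ⁻¹' Iic x) = volume (Ioo (0 : ℝ) 1 ∩ Iic (μ.real (Iic x))) := by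
    have hs : NullMeasurableSet (quantile μ ⁻¹' Iic x) lam :=
      (aemeasurable_quantile μ).nullMeasurable measurableSet_Iic
    rw [Measure.restrict_apply₀ hs]
    congr 1
    ext u
    simp only [mem_inter_iff, mem_preimage, mem_Iic]
    constructor
    · rintro ⟨h1, h2⟩
      exact ⟨h2, (quantile_le_iff μ h2.1 h2.2 x).1 h1⟩
    · rintro ⟨h1, h2⟩
      exact ⟨(quantile_le_iff μ h1.1 h1.2 x).2 h2, h1⟩
  have e2 : volume (Ioo (0 : ℝ) 1 ∩ Iic (μ.real (Iic x))) = ENNReal.ofReal (μ.real (Iic x)) := by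
    apply le_antisymm
    · calc volume (Ioo (0 : ℝ) 1 ∩ Iic (μ.real (Iic x)))
          ≤ volume (Ioc (0 : ℝ) (μ.real (Iic x))) :=
            measure_mono fun u hu => ⟨hu.1.1, hu.2⟩
        _ = ENNReal.ofReal (μ.real (Iic x)) := by rw [Real.volume_Ioc, sub_zero]
    · calc ENNReal.ofReal (μ.real (Iic x)) = volume (Ioo (0 : ℝ) (μ.real (Iic x))) := by
            rw [Real.volume_Ioo, sub_zero]
        _ ≤ volume (Ioo (0 : ℝ) 1 ∩ Iic (μ.real (Iic x))) :=
            measure_mono fun u hu => ⟨⟨hu.1, hu.2.trans_le hF1⟩, hu.2.le⟩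
  rw [e1, e2, ofReal_measureReal]

lemma integrable_quantile (μ : Measure ℝ) [IsProbabilityMeasure μ] (hμ : Integrable id μ) :
    Integrable (quantile μ) lam := by
  have h : Integrable id (lam.map (quantile μ)) := by rwa [map_quantile]
  exact h.comp_aemeasurable (aemeasurable_quantile μ)

/-- the quantile function of the image of the uniform distribution under a monotone left-continuous
function -/
lemma quantile_map {q : ℝ → ℝ} (hq : MonotoneOn q (Ioo (0 : ℝ) 1)) (hm : Measurable q)
    (hlc : ∀ p ∈ Ioo (0 : ℝ) 1, ContinuousWithinAt q (Iic p) p) {p : ℝ} (hp : p ∈ Ioo (0 : ℝ) 1) :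
    quantile (lam.map q) p = q p := by
  have key : ∀ x : ℝ, p ≤ (lam.map q).real (Iic x) ↔ q p ≤ x := by
    intro x
    have e : (lam.map q).real (Iic x) = (volume (Ioo (0 : ℝ) 1 ∩ q ⁻¹' Iic x)).toReal := by
      rw [measureReal_def, Measure.map_apply hm measurableSet_Iic,
        Measure.restrict_apply (hm measurableSet_Iic), inter_comm]
    rw [e]
    constructor
    · intro h
      by_contra hlt
      push Not at hlt
      -- by left-continuity `q > x` also slightly to the left of `p`
      have h1 : ∀ᶠ y in 𝓝[≤] p, x < q y := (hlc p hp).eventually (lt_mem_nhds hlt)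
      rw [eventually_nhdsWithin_iff, Metric.eventually_nhds_iff] at h1
      obtain ⟨ε, hε, h2⟩ := h1
      obtain ⟨y, hy1, hy2⟩ := exists_between (show max (p - ε) 0 < p from
        max_lt (by linarith) hp.1)
      have hy3 : p - ε < y := lt_of_le_of_lt (le_max_left _ _) hy1
      have hy4 : 0 < y := lt_of_le_of_lt (le_max_right _ _) hy1
      have hxy : x < q y := h2 (by rw [Real.dist_eq, abs_lt]; constructor <;> linarith) hy2.le
      have hsub : Ioo (0 : ℝ) 1 ∩ q ⁻¹' Iic x ⊆ Ioo 0 y := by
        rintro u ⟨hu1, hu2⟩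
        refine ⟨hu1.1, ?_⟩
        by_contra hu3
        push Not at hu3
        have := hq ⟨hy4, hy2.trans hp.2⟩ hu1 hu3
        exact absurd (this.trans hu2) (not_le.2 hxy)
      have h3 : (volume (Ioo (0 : ℝ) 1 ∩ q ⁻¹' Iic x)).toReal ≤ y := by
        calc (volume (Ioo (0 : ℝ) 1 ∩ q ⁻¹' Iic x)).toReal
            ≤ (volume (Ioo 0 y)).toReal :=
              ENNReal.toReal_mono (by simp) (measure_mono hsub)
          _ = y := by rw [Real.volume_Ioo, sub_zero, ENNReal.toReal_ofReal hy4.le]
      linarith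
    · intro h
      have hsub : Ioo (0 : ℝ) p ⊆ Ioo (0 : ℝ) 1 ∩ q ⁻¹' Iic x := by
        intro u hu
        refine ⟨⟨hu.1, hu.2.trans hp.2⟩, ?_⟩
        exact (hq ⟨hu.1, hu.2.trans hp.2⟩ hp hu.2.le).trans h
      have hfin : volume (Ioo (0 : ℝ) 1 ∩ q ⁻¹' Iic x) ≠ ⊤ := by
        refine ne_top_of_le_ne_top ?_ (measure_mono inter_subset_left)
        simp
      calc p = (volume (Ioo (0 : ℝ) p)).toReal := by
            rw [Real.volume_Ioo, sub_zero, ENNReal.toReal_ofReal hp.1.le]
        _ ≤ _ := ENNReal.toReal_mono hfin (measure_mono hsub)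
  unfold quantile
  have : {x : ℝ | p ≤ (lam.map q).real (Iic x)} = Ici (q p) := by
    ext x
    exact key x
  rw [this, csInf_Ici]

/-- Fubini on the triangle -/
lemma integral_primitive {f : ℝ → ℝ} (hf : Integrable f lam) :
    ∫ u in Ioo (0 : ℝ) 1, (∫ v in Ioo (0 : ℝ) 1, if v ≤ u then f v else 0) =
      ∫ v in Ioo (0 : ℝ) 1, (1 - v) * f v := by
  rw [integral_integral_swap]
  · refine setIntegral_congr_fun measurableSet_Ioo fun v hv => ?_
    have e : ∀ u : ℝ, (if v ≤ u then f v else 0) = (Ici v).indicator (fun _ => f v) u := by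
      intro u
      by_cases h : v ≤ u
      · rw [if_pos h, indicator_of_mem (show u ∈ Ici v from h)]
      · rw [if_neg h, indicator_of_notMem (show u ∉ Ici v from h)]
    simp only [e]
    rw [setIntegral_indicator measurableSet_Ici, setIntegral_const, smul_eq_mul]
    congr 1
    have : Ioo (0 : ℝ) 1 ∩ Ici v = Ico v 1 := by
      ext u
      simp only [mem_inter_iff, mem_Ioo, mem_Ici, mem_Ico]
      constructor
      · rintro ⟨⟨_, h2⟩, h3⟩; exact ⟨h3, h2⟩
      · rintro ⟨h1, h2⟩; exact ⟨⟨hv.1.trans_le h1, h2⟩, h1⟩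
    rw [this, measureReal_def, Real.volume_Ico, ENNReal.toReal_ofReal (by linarith [hv.2])]
  · have h1 : Integrable (fun z : ℝ × ℝ => f z.2) (lam.prod lam) := hf.comp_snd lam
    have h2 := h1.indicator (measurableSet_le measurable_snd measurable_fst :
      MeasurableSet {z : ℝ × ℝ | z.2 ≤ z.1})
    refine h2.congr (Eventually.of_forall fun z => ?_)
    simp only [indicator, mem_ofPred_eq, Function.uncurry]

end Q287.ISD
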