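import Pool.Agent.Q287.ISD.Link

set_option autoImplicit false

namespace Q287.ISD

open MeasureTheory Set Filter Topology

section
variable {μ ρ : Measure ℝ} [IsProbabilityMeasure μ] [IsProbabilityMeasure ρ]

lemma integrable_max (hμ : Integrable id μ) (w : ℝ) :
    Integrable (fun p : ℝ × ℝ => max (p.2 - p.1 - w) 0) (μ.prod μ) :=
  (((hμ.comp_snd μ).sub (hμ.comp_fst μ)).sub (integrable_const w)).pos_part

lemma gg_symm (hμ : Integrable id μ) (w : ℝ) :
    ∫ x, ∫ y, max (x - y - w) 0 ∂μ ∂μ = gg μ w := by
  unfold gg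
  rw [integral_integral_swap]
  exact (integrable_max hμ w).swap

lemma int_max (hμ : Integrable id μ) (x w : ℝ) : Integrable (fun y => max (y - x - w) 0) μ :=
  ((hμ.sub (integrable_const x)).sub (integrable_const w)).pos_part

lemma int_max' (hμ : Integrable id μ) (x w : ℝ) : Integrable (fun y => max (x - y - w) 0) μ :=
  (((integrable_const x).sub hμ).sub (integrable_const w)).pos_part

lemma int_max_outer (hμ : Integrable id μ) (w : ℝ) :
    Integrable (fun x => ∫ y, max (y - x - w) 0 ∂μ) μ :=
  (integrable_max hμ w).integral_prod_left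

lemma int_max_outer' (hμ : Integrable id μ) (w : ℝ) :
    Integrable (fun x => ∫ y, max (x - y - w) 0 ∂μ) μ :=
  (integrable_max hμ w).swap.integral_prod_left

/-- the mean of the minimum of two shifted copies -/
lemma min_shift (hμ : Integrable id μ) (z z' : ℝ) :
    ∫ x, ∫ y, min (x + z) (y + z') ∂μ ∂μ = (∫ x, x ∂μ) + min z z' - gg μ |z - z'| := by
  have hid : Integrable (fun x : ℝ => x) μ := hμ
  rcases le_total z' z with h | h
  · have e : ∀ x y : ℝ, min (x + z) (y + z') = (y + z') - max (y - x - (z - z')) 0 := by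
      intro x y
      rcases le_total (x + z) (y + z') with h1 | h1
      · rw [min_eq_left h1, max_eq_left (by linarith)]; ring
      · rw [min_eq_right h1, max_eq_right (by linarith)]; ring
    have e2 : ∀ x : ℝ, ∫ y, min (x + z) (y + z') ∂μ = ((∫ y, y ∂μ) + z') -
        ∫ y, max (y - x - (z - z')) 0 ∂μ := by
      intro x
      simp only [e]
      rw [integral_sub (f := fun y => y + z') (hid.add (integrable_const _)) (int_max hμ _ _),
        integral_add hid (integrable_const _)]
      simp
    simp only [e2]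
    rw [integral_sub (integrable_const _) (int_max_outer hμ _), min_eq_right h,
      abs_of_nonneg (by linarith)]
    simp [gg]
  · have e : ∀ x y : ℝ, min (x + z) (y + z') = (x + z) - max (x - y - (z' - z)) 0 := by
      intro x y
      rcases le_total (x + z) (y + z') with h1 | h1
      · rw [min_eq_left h1, max_eq_right (by linarith)]; ring
      · rw [min_eq_right h1, max_eq_left (by linarith)]; ring
    have e2 : ∀ x : ℝ, ∫ y, min (x + z) (y + z') ∂μ = (x + z) -
        ∫ y, max (x - y - (z' - z)) 0 ∂μ := by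
      intro x
      simp only [e]
      rw [integral_sub (integrable_const _) (int_max' hμ _ _)]
      simp
    simp only [e2]
    rw [integral_sub (f := fun x => x + z) (hid.add (integrable_const _)) (int_max_outer' hμ _),
      integral_add hid (integrable_const _), gg_symm hμ, min_eq_left h,
      abs_of_nonpos (by linarith)]
    simp

lemma gg_antitone (hμ : Integrable id μ) : Antitone (gg μ) := by
  intro w w' h
  unfold gg
  refine integral_mono (int_max_outer hμ w') (int_max_outer hμ w) fun x => ?_
  refine integral_mono (int_max hμ x w') (int_max hμ x w) fun y => ?_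
  exact max_le_max (by linarith) le_rfl

lemma gg_nonneg (w : ℝ) : 0 ≤ gg μ w :=
  integral_nonneg fun _ => integral_nonneg fun _ => le_max_right _ _

lemma integrable_gg (hμ : Integrable id μ) :
    Integrable (fun p : ℝ × ℝ => gg μ |p.1 - p.2|) (ρ.prod ρ) := by
  have hm : Measurable (gg μ) := (gg_antitone hμ).measurable
  refine Integrable.of_bound (C := gg μ 0) (hm.comp (by fun_prop)).aestronglyMeasurable
    (Eventually.of_forall fun p => ?_)
  rw [Real.norm_of_nonneg (gg_nonneg _)]
  exact gg_antitone hμ (abs_nonneg _)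

lemma E2_conv (hμ : Integrable id μ) (hρ : Integrable id ρ) :
    E2 (μ.conv ρ) = ∫ z, ∫ z', ((∫ x, x ∂μ) + min z z' - gg μ |z - z'|) ∂ρ ∂ρ := by
  have hm : Integrable id (μ.conv ρ) := integrable_conv hμ hρ
  have hcomm : μ.conv ρ = ρ.conv μ := Measure.conv_comm μ ρ
  unfold E2
  rw [hcomm] at hm ⊢
  have hmin : Integrable (fun p : ℝ × ℝ => min p.1 p.2) ((ρ.conv μ).prod (ρ.conv μ)) :=
    (hm.comp_fst _).inf (hm.comp_snd _)
  have h1 : Integrable (fun w => ∫ w', min w w' ∂(ρ.conv μ)) (ρ.conv μ) :=
    hmin.integral_prod_left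
  rw [integral_conv h1]
  refine integral_congr_ae (Eventually.of_forall fun z => ?_)
  have h2 : ∀ w : ℝ, Integrable (fun w' => min w w') (ρ.conv μ) := fun w =>
    (integrable_const w).inf hm
  have e1 : ∀ x : ℝ, ∫ w', min (z + x) w' ∂(ρ.conv μ) =
      ∫ z', ∫ y, min (x + z) (y + z') ∂μ ∂ρ := by
    intro x
    rw [integral_conv (h2 _)]
    refine integral_congr_ae (Eventually.of_forall fun z' => ?_)
    refine integral_congr_ae (Eventually.of_forall fun y => ?_)
    simp only [add_comm]
  simp only [e1]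
  rw [integral_integral_swap]
  · refine integral_congr_ae (Eventually.of_forall fun z' => ?_)
    exact min_shift hμ z z'
  · have h3 : Integrable (fun p : (ℝ × ℝ) × ℝ => min (p.1.1 + z) (p.2 + p.1.2))
        ((μ.prod ρ).prod μ) := by
      have a1 : Integrable (fun p : (ℝ × ℝ) × ℝ => p.1.1 + z) ((μ.prod ρ).prod μ) :=
        ((hμ.comp_fst ρ).add (integrable_const z)).comp_fst μ
      have a2 : Integrable (fun p : (ℝ × ℝ) × ℝ => p.2 + p.1.2) ((μ.prod ρ).prod μ) :=
        (hμ.comp_snd (μ.prod ρ)).add ((hρ.comp_snd μ).comp_fst μ)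
      exact a1.inf a2
    exact h3.integral_prod_left

end

/-- If the noise `ρ` reverses the order, it is deterministic. -/
lemma exists_dirac {A B ρ : Measure ℝ} [IsProbabilityMeasure A] [IsProbabilityMeasure B]
    [IsProbabilityMeasure ρ] (hA : Integrable id A) (hB : Integrable id B)
    (hρ : Integrable id ρ) (hmean : ∫ x, x ∂A = ∫ x, x ∂B) (h0 : gg A 0 = gg B 0)
    (hpos : ∀ w, 0 < w → gg B w < gg A w) (hle : E2 (B.conv ρ) ≤ E2 (A.conv ρ)) :
    ∃ c : ℝ, ρ = Measure.dirac c := by
  have hmin : Integrable (fun p : ℝ × ℝ => min p.1 p.2) (ρ.prod ρ) :=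
    (hρ.comp_fst _).inf (hρ.comp_snd _)
  have iA : Integrable (fun p : ℝ × ℝ => (∫ x, x ∂A) + min p.1 p.2 - gg A |p.1 - p.2|)
      (ρ.prod ρ) := ((integrable_const _).add hmin).sub (integrable_gg hA)
  have iB : Integrable (fun p : ℝ × ℝ => (∫ x, x ∂B) + min p.1 p.2 - gg B |p.1 - p.2|)
      (ρ.prod ρ) := ((integrable_const _).add hmin).sub (integrable_gg hB)
  rw [E2_conv hA hρ, E2_conv hB hρ] at hle
  rw [integral_integral (f := fun z z' => (∫ x, x ∂B) + min z z' - gg B |z - z'|) iB,
    integral_integral (f := fun z z' => (∫ x, x ∂A) + min z z' - gg A |z - z'|) iA,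
    ← sub_nonneg, ← integral_sub iA iB] at hle
  have hnn : ∀ p : ℝ × ℝ, 0 ≤ gg A |p.1 - p.2| - gg B |p.1 - p.2| := by
    intro p
    rcases (abs_nonneg (p.1 - p.2)).eq_or_lt with h | h
    · rw [← h, h0, sub_self]
    · linarith [hpos _ h]
  have hi : Integrable (fun p : ℝ × ℝ => gg A |p.1 - p.2| - gg B |p.1 - p.2|) (ρ.prod ρ) :=
    (integrable_gg hA).sub (integrable_gg hB)
  have hz : ∫ p : ℝ × ℝ, (gg A |p.1 - p.2| - gg B |p.1 - p.2|) ∂(ρ.prod ρ) = 0 := by
    refine le_antisymm ?_ (integral_nonneg hnn)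
    have e : ∫ p : ℝ × ℝ, (gg A |p.1 - p.2| - gg B |p.1 - p.2|) ∂(ρ.prod ρ) =
        -∫ p : ℝ × ℝ, ((∫ x, x ∂A) + min p.1 p.2 - gg A |p.1 - p.2| -
          ((∫ x, x ∂B) + min p.1 p.2 - gg B |p.1 - p.2|)) ∂(ρ.prod ρ) := by
      rw [← integral_neg]
      refine integral_congr_ae (Eventually.of_forall fun p => ?_)
      simp only [hmean]
      ring
    rw [e]
    linarith
  rw [integral_eq_zero_iff_of_nonneg hnn hi] at hz
  have hae := Measure.ae_ae_of_ae_prod hz
  obtain ⟨c, hc⟩ := hae.exists
  refine ⟨c, ?_⟩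
  have hc' : ∀ᵐ z' ∂ρ, z' = c := by
    filter_upwards [hc] with z' h
    by_contra hne
    have h1 : 0 < |c - z'| := abs_pos.2 (sub_ne_zero.2 (Ne.symm hne))
    have h2 := hpos _ h1
    have h3 : gg A |c - z'| - gg B |c - z'| = 0 := h
    linarith
  have h4 : ρ.map id = ρ.map (fun _ => c) := Measure.map_congr hc'
  rw [Measure.map_id, Measure.map_const] at h4
  rw [h4]
  simp

/-- A large gap of the quantile functions near `0` excludes the order. -/
lemma not_InvLe {m m' : Measure ℝ} [IsProbabilityMeasure m] [IsProbabilityMeasure m']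
    (hm : Integrable id m) (hm' : Integrable id m') {p : ℝ} (hp0 : 0 < p) (hp1 : p < 1)
    (h : ∀ v ∈ Ioo 0 p, quantile m' v + 1 ≤ quantile m v) : ¬ InvLe 3 m m' := by
  intro hle
  have hI : ∀ μ : Measure ℝ, IsProbabilityMeasure μ → Integrable id μ → ∀ a ∈ Icc (0 : ℝ) p,
      IntervalIntegrable (quantile μ) volume 0 a := by
    intro μ _ hi a ha
    refine (intervalIntegrable_quantile μ hi).mono_set ?_
    rw [uIcc_of_le ha.1, uIcc_of_le zero_le_one]
    exact Icc_subset_Icc le_rfl (ha.2.trans hp1.le)
  have hI2 : ∀ μ : Measure ℝ, IsProbabilityMeasure μ → Integrable id μ →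
      IntervalIntegrable (invCdf μ 2) volume 0 p := by
    intro μ _ hi
    apply ContinuousOn.intervalIntegrable
    have := intervalIntegral.continuousOn_primitive_interval
      (μ := volume) (f := quantile μ) (a := 0) (b := p) (by
        have := hI μ inferInstance hi p ⟨hp0.le, le_rfl⟩
        rwa [intervalIntegrable_iff_integrableOn_Icc_of_le hp0.le, ← uIcc_of_le hp0.le] at this)
    exact this
  have h2 : ∀ u ∈ Icc (0 : ℝ) p, invCdf m' 2 u + u ≤ invCdf m 2 u := by
    intro u hu
    have i1 := hI m' inferInstance hm' u hu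
    have i2 := hI m inferInstance hm u hu
    have := intervalIntegral.integral_mono_on_of_le_Ioo hu.1
      (i1.add (intervalIntegrable_const (c := (1 : ℝ)))) i2
      (fun v hv => h v ⟨hv.1, hv.2.trans_le hu.2⟩)
    rw [intervalIntegral.integral_add i1 intervalIntegrable_const,
      intervalIntegral.integral_const] at this
    simpa [invCdf] using this
  have h3 : invCdf m' 3 p + p ^ 2 / 2 ≤ invCdf m 3 p := by
    have i1 := hI2 m' inferInstance hm'
    have i2 := hI2 m inferInstance hm
    have i3 : IntervalIntegrable (fun u : ℝ => u) volume 0 p :=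
      continuous_id.intervalIntegrable _ _
    have := intervalIntegral.integral_mono_on hp0.le (i1.add i3) i2 h2
    rw [intervalIntegral.integral_add i1 i3, integral_id] at this
    have e : ((p : ℝ) ^ 2 - 0 ^ 2) / 2 = p ^ 2 / 2 := by ring
    rw [e] at this
    exact this
  have h4 := hle p ⟨hp0, hp1⟩
  nlinarith

/-- the quantile function of a translated law -/
lemma quantile_dirac (μ : Measure ℝ) [IsProbabilityMeasure μ] (c : ℝ) {p : ℝ}
    (hp : p ∈ Ioo (0 : ℝ) 1) : quantile (μ.conv (Measure.dirac c)) p = quantile μ p + c := by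
  have e : μ.conv (Measure.dirac c) = μ.map (fun x => x + c) := Measure.conv_dirac μ c
  have hprob : IsProbabilityMeasure (μ.conv (Measure.dirac c)) := inferInstance
  refine eq_of_forall_ge_iff fun x => ?_
  rw [quantile_le_iff _ hp.1 hp.2, ← le_sub_iff_add_le, quantile_le_iff _ hp.1 hp.2, e]
  have : (μ.map (fun x => x + c)).real (Iic x) = μ.real (Iic (x - c)) := by
    rw [measureReal_def, Measure.map_apply (by fun_prop) measurableSet_Iic, measureReal_def]
    congr 2
    ext y
    simp [le_sub_iff_add_le]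
  rw [this]

/-- The core statement. `B` is a fair two-point law, `A` has the same mean and the same mean of the
minimum of two copies, gives mass less than `1/4` to `ℝ \ {0}` and is unbounded from below. Then
`B + Z ≤ A + Z` in the third degree inverse order holds for no independent integrable `Z`. -/
theorem core {A B : Measure ℝ} [IsProbabilityMeasure A] [IsProbabilityMeasure B]
    (hA : Integrable id A) (hB : Integrable id B) {a b : ℝ} (hb : 0 < b)
    (hBf : ∀ f : ℝ → ℝ, ∫ x, f x ∂B = f a / 2 + f (a + b) / 2)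
    (hBq : ∀ p ∈ Ioo (0 : ℝ) 1, a ≤ quantile B p)
    (h1 : meanMin A 1 = meanMin B 1) (h2 : meanMin A 2 = meanMin B 2)
    (hA1 : A.real (Iio 0) + A.real (Ioi 0) < 1 / 4) (hA2 : ∀ w : ℝ, 0 < A.real (Iio w))
    (ρ : Measure ℝ) [IsProbabilityMeasure ρ] (hρ : Integrable id ρ) :
    ¬ InvLe 3 (B.conv ρ) (A.conv ρ) := by
  intro hle
  have hmean : ∫ x, x ∂A = ∫ x, x ∂B := by rw [← meanMin_one, ← meanMin_one, h1]
  have hE : ∀ μ : Measure ℝ, IsProbabilityMeasure μ → Integrable id μ →
      gg μ 0 = (∫ x, x ∂μ) - meanMin μ 2 := by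
    intro μ _ hμ
    have := min_shift hμ 0 0
    simp only [add_zero, min_self, sub_self, abs_zero] at this
    rw [← E2_eq_meanMin μ hμ, E2, this]
    ring
  have h0 : gg A 0 = gg B 0 := by
    rw [hE A inferInstance hA, hE B inferInstance hB, hmean, h2]
  have hgB : ∀ w, 0 ≤ w → gg B w = max (b - w) 0 / 4 := by
    intro w hw
    unfold gg
    simp only [hBf]
    have e1 : max (a - a - w) 0 = 0 := max_eq_right (by linarith)
    have e2 : max (a - (a + b) - w) 0 = 0 := max_eq_right (by linarith)
    have e3 : max (a + b - (a + b) - w) 0 = 0 := max_eq_right (by linarith)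
    have e4 : a + b - a - w = b - w := by ring
    rw [e1, e2, e3, e4]
    ring
  have hgA0 : gg A 0 = b / 4 := by
    rw [h0, hgB 0 le_rfl, sub_zero, max_eq_left hb.le]
  -- lower bounds for `gg A`
  have hind : ∀ s : Set ℝ, MeasurableSet s → ∫ x, s.indicator (fun _ => (1 : ℝ)) x ∂A = A.real s := by
    intro s hs
    rw [integral_indicator hs, setIntegral_const, smul_eq_mul, mul_one]
  have iind : ∀ s : Set ℝ, MeasurableSet s → Integrable (s.indicator (fun _ => (1 : ℝ))) A :=
    fun s hs => (integrable_const _).indicator hs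
  have hgA1 : ∀ w, 0 ≤ w → b / 4 - w * (A.real (Iio 0) + A.real (Ioi 0)) ≤ gg A w := by
    intro w hw
    rw [← hgA0]
    have hpt : ∀ x y : ℝ, max (y - x - 0) 0 - w * ((Iio (0 : ℝ)).indicator (fun _ => (1 : ℝ)) x +
        (Ioi (0 : ℝ)).indicator (fun _ => (1 : ℝ)) y) ≤ max (y - x - w) 0 := by
      intro x y
      have n1 : 0 ≤ (Iio (0 : ℝ)).indicator (fun _ => (1 : ℝ)) x :=
        indicator_nonneg (fun _ _ => zero_le_one) _
      have n2 : 0 ≤ (Ioi (0 : ℝ)).indicator (fun _ => (1 : ℝ)) y :=
        indicator_nonneg (fun _ _ => zero_le_one) _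
      by_cases hxy : y ≤ x
      · rw [max_eq_right (by linarith)]
        have := le_max_right (y - x - w) 0
        nlinarith
      · push Not at hxy
        have n3 : 1 ≤ (Iio (0 : ℝ)).indicator (fun _ => (1 : ℝ)) x +
            (Ioi (0 : ℝ)).indicator (fun _ => (1 : ℝ)) y := by
          rcases lt_or_ge x 0 with hx | hx
          · rw [indicator_of_mem (show x ∈ Iio (0 : ℝ) from hx)]; linarith
          · rw [indicator_of_mem (show y ∈ Ioi (0 : ℝ) from lt_of_le_of_lt hx hxy)]; linarith
        rw [max_eq_left (by linarith)]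
        have := le_max_left (y - x - w) 0
        nlinarith
    have hin : ∀ x : ℝ, (∫ y, max (y - x - 0) 0 ∂A) -
        w * ((Iio (0 : ℝ)).indicator (fun _ => (1 : ℝ)) x + A.real (Ioi 0)) ≤
        ∫ y, max (y - x - w) 0 ∂A := by
      intro x
      have j1 : Integrable (fun y => (Iio (0 : ℝ)).indicator (fun _ => (1 : ℝ)) x +
          (Ioi (0 : ℝ)).indicator (fun _ => (1 : ℝ)) y) A :=
        (integrable_const _).add (iind (Ioi 0) measurableSet_Ioi)
      have j2 : Integrable (fun y => w * ((Iio (0 : ℝ)).indicator (fun _ => (1 : ℝ)) x +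
          (Ioi (0 : ℝ)).indicator (fun _ => (1 : ℝ)) y)) A := j1.const_mul w
      have j3 : Integrable (fun y => max (y - x - 0) 0 - w * ((Iio (0 : ℝ)).indicator
          (fun _ => (1 : ℝ)) x + (Ioi (0 : ℝ)).indicator (fun _ => (1 : ℝ)) y)) A :=
        (int_max hA x 0).sub j2
      have := integral_mono (μ := A) j3 (int_max hA x w) (fun y => hpt x y)
      rw [integral_sub (int_max hA x 0) j2, integral_const_mul, integral_add (integrable_const _)
        (iind (Ioi 0) measurableSet_Ioi), hind _ measurableSet_Ioi] at this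
      simpa using this
    have i1 : Integrable (fun x => w * ((Iio (0 : ℝ)).indicator (fun _ => (1 : ℝ)) x +
        A.real (Ioi 0))) A :=
      ((iind (Iio 0) measurableSet_Iio).add (integrable_const _)).const_mul w
    have i2 : Integrable (fun x => (∫ y, max (y - x - 0) 0 ∂A) - w * ((Iio (0 : ℝ)).indicator
        (fun _ => (1 : ℝ)) x + A.real (Ioi 0))) A := (int_max_outer hA 0).sub i1
    have := integral_mono (μ := A) i2 (int_max_outer hA w) hin
    rw [integral_sub (int_max_outer hA 0) i1, integral_const_mul, integral_add (iind (Iio 0)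
      measurableSet_Iio) (integrable_const _), hind _ measurableSet_Iio] at this
    simpa [gg] using this
  have hgA2 : ∀ w, 0 ≤ w → 0 < gg A w := by
    intro w hw
    have hci : 0 < A.real (Ici 0) := by
      have h3 : A.real (Ici (0 : ℝ)) = 1 - A.real (Iio 0) := by
        rw [← compl_Iio, measureReal_compl measurableSet_Iio]
        simp
      have h4 : 0 ≤ A.real (Ioi (0 : ℝ)) := measureReal_nonneg
      linarith
    have hprod : 0 < A.real (Iio (-w - 1)) * A.real (Ici 0) := mul_pos (hA2 _) hci
    refine hprod.trans_le ?_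
    have hpt : ∀ x y : ℝ, (Iio (-w - 1)).indicator (fun _ => (1 : ℝ)) x *
        (Ici (0 : ℝ)).indicator (fun _ => (1 : ℝ)) y ≤ max (y - x - w) 0 := by
      intro x y
      by_cases hx : x ∈ Iio (-w - 1)
      · by_cases hy : y ∈ Ici (0 : ℝ)
        · rw [indicator_of_mem hx, indicator_of_mem hy, mul_one]
          have hx' : x < -w - 1 := hx
          have hy' : 0 ≤ y := hy
          exact le_max_of_le_left (by linarith)
        · rw [indicator_of_notMem hy, mul_zero]; exact le_max_right _ _
      · rw [indicator_of_notMem hx, zero_mul]; exact le_max_right _ _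
    have hin : ∀ x : ℝ, (Iio (-w - 1)).indicator (fun _ => (1 : ℝ)) x * A.real (Ici 0) ≤
        ∫ y, max (y - x - w) 0 ∂A := by
      intro x
      have := integral_mono (μ := A) ((iind (Ici 0) measurableSet_Ici).const_mul
        ((Iio (-w - 1)).indicator (fun _ => (1 : ℝ)) x)) (int_max hA x w) (fun y => hpt x y)
      rwa [integral_const_mul, hind _ measurableSet_Ici] at this
    have := integral_mono (μ := A) ((iind (Iio (-w - 1)) measurableSet_Iio).mul_const
      (A.real (Ici 0))) (int_max_outer hA w) hin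
    rwa [integral_mul_const, hind _ measurableSet_Iio] at this
  have hpos : ∀ w, 0 < w → gg B w < gg A w := by
    intro w hw
    rw [hgB w hw.le]
    rcases le_total b w with h | h
    · rw [max_eq_right (by linarith), zero_div]
      exact hgA2 w hw.le
    · rw [max_eq_left (by linarith)]
      have := hgA1 w hw.le
      nlinarith
  have hcA := integrable_conv hA hρ
  have hcB := integrable_conv hB hρ
  obtain ⟨c, rfl⟩ := exists_dirac hA hB hρ hmean h0 hpos (hle.E2_le hcB hcA)
  -- the noise is deterministic, compare the quantiles near `0`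
  have hp0 : 0 < A.real (Iio (a - 1)) := hA2 _
  set p := min (A.real (Iio (a - 1))) (1 / 2) with hp
  have hp0' : 0 < p := lt_min hp0 (by norm_num)
  have hp1 : p < 1 := lt_of_le_of_lt (min_le_right _ _) (by norm_num)
  refine not_InvLe hcB hcA hp0' hp1 ?_ hle
  intro v hv
  have hv' : v ∈ Ioo (0 : ℝ) 1 := ⟨hv.1, hv.2.trans hp1⟩
  rw [quantile_dirac A c hv', quantile_dirac B c hv']
  have h3 : quantile A v ≤ a - 1 := by
    rw [quantile_le_iff A hv'.1 hv'.2]
    calc v ≤ A.real (Iio (a - 1)) := hv.2.le.trans (min_le_left _ _)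
      _ ≤ A.real (Iic (a - 1)) := measureReal_mono Iio_subset_Iic_self
  have h4 := hBq v hv'
  linarith

end Q287.ISD
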