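import Mathlib

set_option autoImplicit false

/-!
# Inverse stochastic dominance: definitions
-/

namespace Q287.ISD

open MeasureTheory

/-- The quantile function `F⁻¹(p) = inf {x : F(x) ≥ p}` of a probability measure `μ` on `ℝ` with
distribution function `F(x) = μ (-∞, x]`. -/
noncomputable def quantile (μ : Measure ℝ) (p : ℝ) : ℝ :=
  sInf {x : ℝ | p ≤ μ.real (Set.Iic x)}

/-- The functions `F^[-n]` for `n ≥ 1`: `F^[-1]` is the quantile function and
`F^[-(n+1)](p) = ∫_0^p F^[-n](u) du`. The value at `n = 0` is not used. -/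
noncomputable def invCdf (μ : Measure ℝ) : ℕ → ℝ → ℝ
  | 0 => fun _ => 0
  | 1 => quantile μ
  | (n + 2) => fun p => ∫ u in (0 : ℝ)..p, invCdf μ (n + 1) u

/-- The `n`-th degree inverse stochastic order: `F_μ^[-n](p) ≤ F_ν^[-n](p)` for all
`0 < p < 1`. -/
def InvLe (n : ℕ) (μ ν : Measure ℝ) : Prop :=
  ∀ p ∈ Set.Ioo (0 : ℝ) 1, invCdf μ n p ≤ invCdf ν n p

/-- The strict `n`-th degree inverse stochastic order: in addition the inequality is strict for at
least one `p`. -/
def InvLt (n : ℕ) (μ ν : Measure ℝ) : Prop :=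
  InvLe n μ ν ∧ ∃ p ∈ Set.Ioo (0 : ℝ) 1, invCdf μ n p < invCdf ν n p

/-- The mean of the minimum of `k` independent copies of a random variable with law `μ`, in the
form `k ∫_0^1 F⁻¹(u) (1 - u)^(k-1) du`. -/
noncomputable def meanMin (μ : Measure ℝ) (k : ℕ) : ℝ :=
  k * ∫ u in (0 : ℝ)..1, quantile μ u * (1 - u) ^ (k - 1)

end Q287.ISD
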