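import Pool.Agent.Q287.ISD.Core

set_option autoImplicit false

namespace Q287.ISD

open MeasureTheory Set Filter Topology

/-- quantile function of the unbounded law -/
noncomputable def qA (s : ℝ) (u : ℝ) : ℝ :=
  if u ≤ 1 / 16 then -24 * u ^ (-(1 / 2) : ℝ) else if u ≤ 15 / 16 then 0 else
    s * (1 - u) ^ (-(1 / 2) : ℝ)

/-- quantile function of the two-point law -/
noncomputable def qB (a b : ℝ) (u : ℝ) : ℝ := if u ≤ 1 / 2 then a else a + b

/-- the unbounded law -/
noncomputable def lawA (s : ℝ) : Measure ℝ := lam.map (qA s)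

/-- the two-point law -/
noncomputable def lawB (a b : ℝ) : Measure ℝ := lam.map (qB a b)

lemma measurable_qA (s : ℝ) : Measurable (qA s) := by
  unfold qA
  refine Measurable.ite measurableSet_Iic (by fun_prop) (Measurable.ite measurableSet_Iic
    (by fun_prop) (by fun_prop))

lemma measurable_qB (a b : ℝ) : Measurable (qB a b) := by
  unfold qB
  exact Measurable.ite measurableSet_Iic (by fun_prop) (by fun_prop)

instance (s : ℝ) : IsProbabilityMeasure (lawA s) :=
  Measure.isProbabilityMeasure_map (measurable_qA s).aemeasurable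

instance (a b : ℝ) : IsProbabilityMeasure (lawB a b) :=
  Measure.isProbabilityMeasure_map (measurable_qB a b).aemeasurable

lemma rpow_anti {x y : ℝ} (hx : 0 < x) (hxy : x ≤ y) :
    y ^ (-(1 / 2) : ℝ) ≤ x ^ (-(1 / 2) : ℝ) :=
  Real.rpow_le_rpow_of_nonpos hx hxy (by norm_num)

lemma qA_mono {s : ℝ} (hs : 0 ≤ s) : MonotoneOn (qA s) (Ioo (0 : ℝ) 1) := by
  intro p hp q hq hpq
  have n1 : 0 ≤ p ^ (-(1 / 2) : ℝ) := Real.rpow_nonneg hp.1.le _
  have n2 : 0 ≤ (1 - q) ^ (-(1 / 2) : ℝ) := Real.rpow_nonneg (by linarith [hq.2]) _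
  unfold qA
  split_ifs with h1 h2 h3 h4 h5 h6
  · have := rpow_anti hp.1 hpq
    linarith
  · linarith
  · have := mul_nonneg hs n2
    linarith
  · linarith
  · exact le_rfl
  · exact mul_nonneg hs n2
  · linarith
  · linarith
  · exact mul_le_mul_of_nonneg_left (rpow_anti (by linarith [hq.2]) (by linarith)) hs

lemma qB_mono {a b : ℝ} (hb : 0 ≤ b) : MonotoneOn (qB a b) (Ioo (0 : ℝ) 1) := by
  intro p _ q _ hpq
  unfold qB
  split_ifs <;> linarith

lemma qA_lc (s : ℝ) : ∀ p ∈ Ioo (0 : ℝ) 1, ContinuousWithinAt (qA s) (Iic p) p := by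
  intro p hp
  rcases le_or_gt p (1 / 16) with h | h
  · have hc : ContinuousAt (fun u : ℝ => -24 * u ^ (-(1 / 2) : ℝ)) p :=
      (Real.continuousAt_rpow_const p _ (Or.inl hp.1.ne')).const_mul _
    refine hc.continuousWithinAt.congr (fun u hu => ?_) ?_
    · have : u ≤ 1 / 16 := le_trans hu h
      simp only [qA, if_pos this]
    · simp only [qA, if_pos h]
  · rcases le_or_gt p (15 / 16) with h2 | h2
    · have hev : qA s =ᶠ[𝓝[Iic p] p] fun _ => 0 := by
        filter_upwards [self_mem_nhdsWithin, mem_nhdsWithin_of_mem_nhds (Ioi_mem_nhds h)]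
          with u hu1 hu2
        have a1 : ¬ u ≤ 1 / 16 := not_le.2 hu2
        have a2 : u ≤ 15 / 16 := le_trans hu1 h2
        simp only [qA, if_neg a1, if_pos a2]
      refine (continuousWithinAt_const (b := (0 : ℝ))).congr_of_eventuallyEq hev ?_
      simp only [qA, if_neg (not_le.2 h), if_pos h2]
    · have hc : ContinuousAt (fun u : ℝ => s * (1 - u) ^ (-(1 / 2) : ℝ)) p := by
        have h3 : ContinuousAt (fun u : ℝ => (1 - u)) p := by fun_prop
        have h4 : ContinuousAt (fun x : ℝ => x ^ (-(1 / 2) : ℝ)) (1 - p) :=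
          Real.continuousAt_rpow_const _ _ (Or.inl (by linarith [hp.2]))
        exact (ContinuousAt.comp (f := fun u : ℝ => 1 - u) h4 h3).const_mul s
      have hev : qA s =ᶠ[𝓝[Iic p] p] fun u : ℝ => s * (1 - u) ^ (-(1 / 2) : ℝ) := by
        filter_upwards [mem_nhdsWithin_of_mem_nhds (Ioi_mem_nhds h2)] with u hu2
        have hu3 : 15 / 16 < u := hu2
        have a1 : ¬ u ≤ 1 / 16 := by linarith
        have a2 : ¬ u ≤ 15 / 16 := not_le.2 hu3
        simp only [qA, if_neg a1, if_neg a2]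
      refine hc.continuousWithinAt.congr_of_eventuallyEq hev ?_
      simp only [qA, if_neg (not_le.2 h), if_neg (not_le.2 h2)]

lemma qB_lc (a b : ℝ) : ∀ p ∈ Ioo (0 : ℝ) 1, ContinuousWithinAt (qB a b) (Iic p) p := by
  intro p hp
  rcases le_or_gt p (1 / 2) with h | h
  · refine (continuousWithinAt_const (b := a)).congr (fun u hu => ?_) ?_
    · have : u ≤ 1 / 2 := le_trans hu h
      simp only [qB, if_pos this]
    · simp only [qB, if_pos h]
  · have hev : qB a b =ᶠ[𝓝[Iic p] p] fun _ => a + b := by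
      filter_upwards [mem_nhdsWithin_of_mem_nhds (Ioi_mem_nhds h)] with u hu2
      have a1 : ¬ u ≤ 1 / 2 := not_le.2 hu2
      simp only [qB, if_neg a1]
    refine (continuousWithinAt_const (b := a + b)).congr_of_eventuallyEq hev ?_
    simp only [qB, if_neg (not_le.2 h)]

lemma quantile_lawA {s : ℝ} (hs : 0 ≤ s) {p : ℝ} (hp : p ∈ Ioo (0 : ℝ) 1) :
    quantile (lawA s) p = qA s p := quantile_map (qA_mono hs) (measurable_qA s) (qA_lc s) hp

lemma quantile_lawB {a b : ℝ} (hb : 0 ≤ b) {p : ℝ} (hp : p ∈ Ioo (0 : ℝ) 1) :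
    quantile (lawB a b) p = qB a b p := quantile_map (qB_mono hb) (measurable_qB a b) (qB_lc a b) hp

/-- integrals of `u ^ (-1/2)` times polynomials -/
lemma int_rpow {r : ℝ} (hr : -1 < r) {x : ℝ} (hx : (1 / 16 : ℝ) ^ (r + 1) = x) :
    ∫ u in (0 : ℝ)..(1 / 16), u ^ r = x / (r + 1) := by
  rw [integral_rpow (Or.inl hr), hx, Real.zero_rpow (by linarith), sub_zero]

lemma ii_rpow {r : ℝ} (hr : -1 < r) (a b : ℝ) : IntervalIntegrable (fun u : ℝ => u ^ r) volume a b :=
  intervalIntegral.intervalIntegrable_rpow' hr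

lemma half_pow : (1 / 16 : ℝ) ^ (1 / 2 : ℝ) = 1 / 4 := by
  rw [← Real.sqrt_eq_rpow]
  rw [show (1 / 16 : ℝ) = (1 / 4) ^ 2 by norm_num, Real.sqrt_sq (by norm_num)]

lemma three_half_pow : (1 / 16 : ℝ) ^ (3 / 2 : ℝ) = 1 / 64 := by
  rw [show (3 / 2 : ℝ) = 1 + 1 / 2 by norm_num, Real.rpow_add (by norm_num), Real.rpow_one,
    half_pow]
  norm_num

lemma five_half_pow : (1 / 16 : ℝ) ^ (5 / 2 : ℝ) = 1 / 1024 := by
  rw [show (5 / 2 : ℝ) = 2 + 1 / 2 by norm_num, Real.rpow_add (by norm_num), half_pow]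
  norm_num

lemma I1 : ∫ u in (0 : ℝ)..(1 / 16), u ^ (-(1 / 2) : ℝ) = 1 / 2 := by
  rw [int_rpow (x := 1 / 4) (by norm_num)]
  · norm_num
  · rw [show (-(1 / 2) + 1 : ℝ) = 1 / 2 by norm_num, half_pow]

lemma I2 : ∫ u in (0 : ℝ)..(1 / 16), u ^ (1 / 2 : ℝ) = 1 / 96 := by
  rw [int_rpow (x := 1 / 64) (by norm_num)]
  · norm_num
  · rw [show (1 / 2 + 1 : ℝ) = 3 / 2 by norm_num, three_half_pow]

lemma I3 : ∫ u in (0 : ℝ)..(1 / 16), u ^ (3 / 2 : ℝ) = 1 / 2560 := by
  rw [int_rpow (x := 1 / 1024) (by norm_num)]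
  · norm_num
  · rw [show (3 / 2 + 1 : ℝ) = 5 / 2 by norm_num, five_half_pow]

lemma rpow_mul_one {u : ℝ} (hu : 0 < u) :
    u ^ (-(1 / 2) : ℝ) * u = u ^ (1 / 2 : ℝ) := by
  conv_lhs => rw [← Real.rpow_one u, ← Real.rpow_mul hu.le, ← Real.rpow_add hu]
  norm_num

lemma rpow_mul_two {u : ℝ} (hu : 0 < u) :
    u ^ (-(1 / 2) : ℝ) * u ^ 2 = u ^ (3 / 2 : ℝ) := by
  have e : u ^ 2 = u ^ (2 : ℝ) := by norm_cast
  rw [e, ← Real.rpow_add hu]
  norm_num

/-- the left part -/
lemma left_int (k : ℕ) : IntervalIntegrable (fun u : ℝ => u ^ (-(1 / 2) : ℝ) * (1 - u) ^ k)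
    volume 0 (1 / 16) :=
  (ii_rpow (by norm_num) _ _).mul_continuousOn (by fun_prop)

lemma L0 : ∫ u in (0 : ℝ)..(1 / 16), u ^ (-(1 / 2) : ℝ) * (1 - u) ^ 0 = 1 / 2 := by
  simp only [pow_zero, mul_one]
  exact I1

lemma L1 : ∫ u in (0 : ℝ)..(1 / 16), u ^ (-(1 / 2) : ℝ) * (1 - u) ^ 1 = 47 / 96 := by
  have e : ∫ u in (0 : ℝ)..(1 / 16), u ^ (-(1 / 2) : ℝ) * (1 - u) ^ 1 =
      ∫ u in (0 : ℝ)..(1 / 16), (u ^ (-(1 / 2) : ℝ) - u ^ (1 / 2 : ℝ)) := by
    apply intervalIntegral.integral_congr_Ioo_of_le (by norm_num)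
    intro u hu
    have := rpow_mul_one hu.1
    simp only
    rw [← this]
    ring
  rw [e, intervalIntegral.integral_sub (ii_rpow (by norm_num) _ _) (ii_rpow (by norm_num) _ _),
    I1, I2]
  norm_num

lemma L2 : ∫ u in (0 : ℝ)..(1 / 16), u ^ (-(1 / 2) : ℝ) * (1 - u) ^ 2 = 3683 / 7680 := by
  have e : ∫ u in (0 : ℝ)..(1 / 16), u ^ (-(1 / 2) : ℝ) * (1 - u) ^ 2 =
      ∫ u in (0 : ℝ)..(1 / 16), ((u ^ (-(1 / 2) : ℝ) - 2 * u ^ (1 / 2 : ℝ)) +
        u ^ (3 / 2 : ℝ)) := by
    apply intervalIntegral.integral_congr_Ioo_of_le (by norm_num)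
    intro u hu
    have h1 := rpow_mul_one hu.1
    have h2 := rpow_mul_two hu.1
    simp only
    rw [← h1, ← h2]
    ring
  rw [e, intervalIntegral.integral_add ((ii_rpow (by norm_num) _ _).sub
    ((ii_rpow (by norm_num) _ _).const_mul 2)) (ii_rpow (by norm_num) _ _),
    intervalIntegral.integral_sub (ii_rpow (by norm_num) _ _)
    ((ii_rpow (by norm_num) _ _).const_mul 2), intervalIntegral.integral_const_mul, I1, I2, I3]
  norm_num

lemma R0 : ∫ u in (15 / 16 : ℝ)..1, (1 - u) ^ (-(1 / 2) : ℝ) * (1 - u) ^ 0 = 1 / 2 := by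
  rw [intervalIntegral.integral_comp_sub_left (fun t : ℝ => t ^ (-(1 / 2) : ℝ) * t ^ 0) 1]
  norm_num
  have := I1
  norm_num at this
  exact this

lemma R1 : ∫ u in (15 / 16 : ℝ)..1, (1 - u) ^ (-(1 / 2) : ℝ) * (1 - u) ^ 1 = 1 / 96 := by
  rw [intervalIntegral.integral_comp_sub_left (fun t : ℝ => t ^ (-(1 / 2) : ℝ) * t ^ 1) 1,
    show (1 : ℝ) - 1 = 0 by norm_num, show (1 : ℝ) - 15 / 16 = 1 / 16 by norm_num, ← I2]
  apply intervalIntegral.integral_congr_Ioo_of_le (by norm_num)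
  intro u hu
  simp only [pow_one]
  exact rpow_mul_one hu.1

lemma R2 : ∫ u in (15 / 16 : ℝ)..1, (1 - u) ^ (-(1 / 2) : ℝ) * (1 - u) ^ 2 = 1 / 2560 := by
  rw [intervalIntegral.integral_comp_sub_left (fun t : ℝ => t ^ (-(1 / 2) : ℝ) * t ^ 2) 1,
    show (1 : ℝ) - 1 = 0 by norm_num, show (1 : ℝ) - 15 / 16 = 1 / 16 by norm_num, ← I3]
  apply intervalIntegral.integral_congr_Ioo_of_le (by norm_num)
  intro u hu
  exact rpow_mul_two hu.1

lemma right_int (k : ℕ) : IntervalIntegrable (fun u : ℝ => (1 - u) ^ (-(1 / 2) : ℝ) * (1 - u) ^ k)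
    volume (15 / 16) 1 := by
  have h : IntervalIntegrable (fun t : ℝ => t ^ (-(1 / 2) : ℝ) * t ^ k) volume (1 / 16) 0 :=
    (ii_rpow (by norm_num) _ _).mul_continuousOn (by fun_prop)
  have := h.comp_sub_left 1
  norm_num at this ⊢
  exact this

/-- the integrals against the quantile function of the unbounded law -/
lemma int_lawA {s : ℝ} (hs : 0 ≤ s) (k : ℕ) :
    ∫ u in (0 : ℝ)..1, quantile (lawA s) u * (1 - u) ^ k =
      -24 * (∫ u in (0 : ℝ)..(1 / 16), u ^ (-(1 / 2) : ℝ) * (1 - u) ^ k) +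
        s * ∫ u in (15 / 16 : ℝ)..1, (1 - u) ^ (-(1 / 2) : ℝ) * (1 - u) ^ k := by
  have e0 : ∫ u in (0 : ℝ)..1, quantile (lawA s) u * (1 - u) ^ k =
      ∫ u in (0 : ℝ)..1, qA s u * (1 - u) ^ k := by
    apply intervalIntegral.integral_congr_Ioo_of_le zero_le_one
    intro u hu
    simp only
    rw [quantile_lawA hs hu]
  have c1 : ∀ u ∈ Ioo (0 : ℝ) (1 / 16), qA s u * (1 - u) ^ k =
      -24 * (u ^ (-(1 / 2) : ℝ) * (1 - u) ^ k) := by
    intro u hu
    simp only [qA, if_pos hu.2.le]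
    ring
  have c2 : ∀ u ∈ Ioo (1 / 16 : ℝ) (15 / 16), qA s u * (1 - u) ^ k = 0 := by
    intro u hu
    simp only [qA, if_neg (not_le.2 hu.1), if_pos hu.2.le]
    ring
  have c3 : ∀ u ∈ Ioo (15 / 16 : ℝ) 1, qA s u * (1 - u) ^ k =
      s * ((1 - u) ^ (-(1 / 2) : ℝ) * (1 - u) ^ k) := by
    intro u hu
    have a1 : ¬ u ≤ 1 / 16 := by linarith [hu.1]
    simp only [qA, if_neg a1, if_neg (not_le.2 hu.1)]
    ring
  have i1 : IntervalIntegrable (fun u => qA s u * (1 - u) ^ k) volume 0 (1 / 16) :=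
    ((left_int k).const_mul (-24)).congr_uIoo (by
      intro u hu
      rw [uIoo_of_le (by norm_num)] at hu
      exact (c1 u hu).symm)
  have i2 : IntervalIntegrable (fun u => qA s u * (1 - u) ^ k) volume (1 / 16) (15 / 16) :=
    (intervalIntegrable_const (c := (0 : ℝ))).congr_uIoo (by
      intro u hu
      rw [uIoo_of_le (by norm_num)] at hu
      exact (c2 u hu).symm)
  have i3 : IntervalIntegrable (fun u => qA s u * (1 - u) ^ k) volume (15 / 16) 1 :=
    ((right_int k).const_mul s).congr_uIoo (by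
      intro u hu
      rw [uIoo_of_le (by norm_num)] at hu
      exact (c3 u hu).symm)
  rw [e0, ← intervalIntegral.integral_add_adjacent_intervals (i1.trans i2) i3,
    ← intervalIntegral.integral_add_adjacent_intervals i1 i2,
    intervalIntegral.integral_congr_Ioo_of_le (by norm_num) c1,
    intervalIntegral.integral_congr_Ioo_of_le (by norm_num) c2,
    intervalIntegral.integral_congr_Ioo_of_le (by norm_num) c3,
    intervalIntegral.integral_const_mul, intervalIntegral.integral_const_mul]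
  simp

lemma integrable_lawA {s : ℝ} (hs : 0 ≤ s) : Integrable id (lawA s) := by
  unfold lawA
  rw [integrable_map_measure aestronglyMeasurable_id (measurable_qA s).aemeasurable]
  have c1 : ∀ u ∈ Ioo (0 : ℝ) (1 / 16), qA s u = -24 * (u ^ (-(1 / 2) : ℝ) * (1 - u) ^ 0) := by
    intro u hu
    simp only [qA, if_pos hu.2.le]
    ring
  have c2 : ∀ u ∈ Ioo (1 / 16 : ℝ) (15 / 16), qA s u = 0 := by
    intro u hu
    simp only [qA, if_neg (not_le.2 hu.1), if_pos hu.2.le]
  have c3 : ∀ u ∈ Ioo (15 / 16 : ℝ) 1, qA s u =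
      s * ((1 - u) ^ (-(1 / 2) : ℝ) * (1 - u) ^ 0) := by
    intro u hu
    have a1 : ¬ u ≤ 1 / 16 := by linarith [hu.1]
    simp only [qA, if_neg a1, if_neg (not_le.2 hu.1)]
    ring
  have i1 : IntervalIntegrable (qA s) volume 0 (1 / 16) :=
    ((left_int 0).const_mul (-24)).congr_uIoo (by
      intro u hu
      rw [uIoo_of_le (by norm_num)] at hu
      exact (c1 u hu).symm)
  have i2 : IntervalIntegrable (qA s) volume (1 / 16) (15 / 16) :=
    (intervalIntegrable_const (c := (0 : ℝ))).congr_uIoo (by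
      intro u hu
      rw [uIoo_of_le (by norm_num)] at hu
      exact (c2 u hu).symm)
  have i3 : IntervalIntegrable (qA s) volume (15 / 16) 1 :=
    ((right_int 0).const_mul s).congr_uIoo (by
      intro u hu
      rw [uIoo_of_le (by norm_num)] at hu
      exact (c3 u hu).symm)
  have := (i1.trans i2).trans i3
  rwa [intervalIntegrable_iff_integrableOn_Ioo_of_le zero_le_one] at this

lemma meanMin_lawA_one {s : ℝ} (hs : 0 ≤ s) : meanMin (lawA s) 1 = -12 + s / 2 := by
  unfold meanMin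
  rw [int_lawA hs, L0, R0]
  push_cast
  ring

lemma meanMin_lawA_two {s : ℝ} (hs : 0 ≤ s) : meanMin (lawA s) 2 = -47 / 2 + s / 48 := by
  unfold meanMin
  rw [int_lawA hs]
  simp only [show 2 - 1 = 1 from rfl]
  rw [L1, R1]
  push_cast
  ring

lemma meanMin_lawA_three {s : ℝ} (hs : 0 ≤ s) :
    meanMin (lawA s) 3 = -11049 / 320 + 3 * s / 2560 := by
  unfold meanMin
  rw [int_lawA hs]
  simp only [show 3 - 1 = 2 from rfl]
  rw [L2, R2]
  push_cast
  ring

/-- integrals against the quantile function of the two-point law -/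
lemma int_lawB {a b : ℝ} (hb : 0 ≤ b) (k : ℕ) :
    ∫ u in (0 : ℝ)..1, quantile (lawB a b) u * (1 - u) ^ k =
      a * (∫ u in (0 : ℝ)..(1 / 2), (1 - u) ^ k) +
        (a + b) * ∫ u in (1 / 2 : ℝ)..1, (1 - u) ^ k := by
  have e0 : ∫ u in (0 : ℝ)..1, quantile (lawB a b) u * (1 - u) ^ k =
      ∫ u in (0 : ℝ)..1, qB a b u * (1 - u) ^ k := by
    apply intervalIntegral.integral_congr_Ioo_of_le zero_le_one
    intro u hu
    simp only
    rw [quantile_lawB hb hu]
  have c1 : ∀ u ∈ Ioo (0 : ℝ) (1 / 2), qB a b u * (1 - u) ^ k = a * (1 - u) ^ k := by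
    intro u hu
    simp only [qB, if_pos hu.2.le]
  have c2 : ∀ u ∈ Ioo (1 / 2 : ℝ) 1, qB a b u * (1 - u) ^ k = (a + b) * (1 - u) ^ k := by
    intro u hu
    simp only [qB, if_neg (not_le.2 hu.1)]
  have j : ∀ x y : ℝ, IntervalIntegrable (fun u : ℝ => (1 - u) ^ k) volume x y := fun x y =>
    (by fun_prop : Continuous fun u : ℝ => (1 - u) ^ k).intervalIntegrable _ _
  have i1 : IntervalIntegrable (fun u => qB a b u * (1 - u) ^ k) volume 0 (1 / 2) :=
    ((j 0 (1 / 2)).const_mul a).congr_uIoo (by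
      intro u hu
      rw [uIoo_of_le (by norm_num)] at hu
      exact (c1 u hu).symm)
  have i2 : IntervalIntegrable (fun u => qB a b u * (1 - u) ^ k) volume (1 / 2) 1 :=
    ((j (1 / 2) 1).const_mul (a + b)).congr_uIoo (by
      intro u hu
      rw [uIoo_of_le (by norm_num)] at hu
      exact (c2 u hu).symm)
  rw [e0, ← intervalIntegral.integral_add_adjacent_intervals i1 i2,
    intervalIntegral.integral_congr_Ioo_of_le (by norm_num) c1,
    intervalIntegral.integral_congr_Ioo_of_le (by norm_num) c2,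
    intervalIntegral.integral_const_mul, intervalIntegral.integral_const_mul]

lemma int_one_sub_pow (x y : ℝ) (k : ℕ) :
    ∫ u in x..y, (1 - u) ^ k = ((1 - x) ^ (k + 1) - (1 - y) ^ (k + 1)) / (k + 1) := by
  rw [intervalIntegral.integral_comp_sub_left (fun t : ℝ => t ^ k) 1, integral_pow]

lemma meanMin_lawB_one {a b : ℝ} (hb : 0 ≤ b) : meanMin (lawB a b) 1 = a + b / 2 := by
  unfold meanMin
  rw [int_lawB hb, int_one_sub_pow, int_one_sub_pow]
  norm_num
  ring

lemma meanMin_lawB_two {a b : ℝ} (hb : 0 ≤ b) : meanMin (lawB a b) 2 = a + b / 4 := by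
  unfold meanMin
  rw [int_lawB hb, int_one_sub_pow, int_one_sub_pow]
  norm_num
  ring

lemma meanMin_lawB_three {a b : ℝ} (hb : 0 ≤ b) : meanMin (lawB a b) 3 = a + b / 8 := by
  unfold meanMin
  rw [int_lawB hb, int_one_sub_pow, int_one_sub_pow]
  norm_num
  ring

lemma lawB_eq (a b : ℝ) :
    lawB a b = (2⁻¹ : ENNReal) • Measure.dirac a + (2⁻¹ : ENNReal) • Measure.dirac (a + b) := by
  have h1 : lam = volume.restrict (Ioc (0 : ℝ) (1 / 2)) + volume.restrict (Ioo (1 / 2 : ℝ) 1) := by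
    rw [← Measure.restrict_union _ measurableSet_Ioo, Ioc_union_Ioo_eq_Ioo (by norm_num)
      (by norm_num)]
    rw [Set.disjoint_left]
    intro x hx hx'
    exact absurd hx.2 (not_le.2 hx'.1)
  have h2 : (volume.restrict (Ioc (0 : ℝ) (1 / 2))).map (qB a b) =
      (2⁻¹ : ENNReal) • Measure.dirac a := by
    have : (volume.restrict (Ioc (0 : ℝ) (1 / 2))).map (qB a b) =
        (volume.restrict (Ioc (0 : ℝ) (1 / 2))).map (fun _ => a) := by
      refine Measure.map_congr ((ae_restrict_mem measurableSet_Ioc).mono fun u hu => ?_)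
      simp only [qB, if_pos hu.2]
    rw [this, Measure.map_const]
    congr 1
    rw [Measure.restrict_apply_univ, Real.volume_Ioc]
    norm_num
    rw [ENNReal.ofReal_div_of_pos (by norm_num)]
    norm_num
  have h3 : (volume.restrict (Ioo (1 / 2 : ℝ) 1)).map (qB a b) =
      (2⁻¹ : ENNReal) • Measure.dirac (a + b) := by
    have : (volume.restrict (Ioo (1 / 2 : ℝ) 1)).map (qB a b) =
        (volume.restrict (Ioo (1 / 2 : ℝ) 1)).map (fun _ => a + b) := by
      refine Measure.map_congr ((ae_restrict_mem measurableSet_Ioo).mono fun u hu => ?_)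
      simp only [qB, if_neg (not_le.2 hu.1)]
    rw [this, Measure.map_const]
    congr 1
    rw [Measure.restrict_apply_univ, Real.volume_Ioo]
    norm_num
    rw [ENNReal.ofReal_div_of_pos (by norm_num)]
    norm_num
  unfold lawB
  rw [h1, Measure.map_add _ _ (measurable_qB a b), h2, h3]

lemma integral_lawB (a b : ℝ) (f : ℝ → ℝ) : ∫ x, f x ∂(lawB a b) = f a / 2 + f (a + b) / 2 := by
  have i1 : ∀ c : ℝ, Integrable f ((2⁻¹ : ENNReal) • Measure.dirac c) := fun c =>
    (integrable_dirac (by simp)).smul_measure (by simp)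
  rw [lawB_eq, integral_add_measure (i1 _) (i1 _), integral_smul_measure, integral_smul_measure,
    integral_dirac, integral_dirac]
  simp
  ring

lemma integrable_lawB (a b : ℝ) : Integrable id (lawB a b) := by
  have i1 : ∀ c : ℝ, Integrable id ((2⁻¹ : ENNReal) • Measure.dirac c) := fun c =>
    (integrable_dirac (by simp)).smul_measure (by simp)
  rw [lawB_eq]
  exact (i1 _).add_measure (i1 _)

lemma lawA_real (s : ℝ) {t : Set ℝ} (ht : MeasurableSet t) :
    (lawA s).real t = (volume (Ioo (0 : ℝ) 1 ∩ qA s ⁻¹' t)).toReal := by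
  unfold lawA
  rw [measureReal_def, Measure.map_apply (measurable_qA s) ht,
    Measure.restrict_apply (measurable_qA s ht), inter_comm]

lemma lawA_small {s : ℝ} (hs : 0 ≤ s) :
    (lawA s).real (Iio 0) + (lawA s).real (Ioi 0) < 1 / 4 := by
  have h1 : (lawA s).real (Iio 0) ≤ 1 / 16 := by
    rw [lawA_real s measurableSet_Iio]
    have hsub : Ioo (0 : ℝ) 1 ∩ qA s ⁻¹' Iio 0 ⊆ Ioc 0 (1 / 16) := by
      rintro u ⟨hu1, hu2⟩
      refine ⟨hu1.1, ?_⟩
      by_contra hn
      have hlt : qA s u < 0 := hu2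
      simp only [qA, if_neg hn] at hlt
      split_ifs at hlt
      · exact lt_irrefl _ hlt
      · exact absurd hlt (not_lt.2 (mul_nonneg hs (Real.rpow_nonneg (by linarith [hu1.2]) _)))
    calc (volume (Ioo (0 : ℝ) 1 ∩ qA s ⁻¹' Iio 0)).toReal ≤
        (volume (Ioc (0 : ℝ) (1 / 16))).toReal :=
          ENNReal.toReal_mono (by simp) (measure_mono hsub)
      _ = 1 / 16 := by rw [Real.volume_Ioc]; norm_num
  have h2 : (lawA s).real (Ioi 0) ≤ 1 / 16 := by
    rw [lawA_real s measurableSet_Ioi]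
    have hsub : Ioo (0 : ℝ) 1 ∩ qA s ⁻¹' Ioi 0 ⊆ Ioo (15 / 16) 1 := by
      rintro u ⟨hu1, hu2⟩
      refine ⟨?_, hu1.2⟩
      by_contra hn
      push Not at hn
      have hlt : 0 < qA s u := hu2
      simp only [qA, if_pos hn] at hlt
      split_ifs at hlt
      · have := Real.rpow_nonneg hu1.1.le (-(1 / 2))
        linarith
      · exact lt_irrefl _ hlt
    calc (volume (Ioo (0 : ℝ) 1 ∩ qA s ⁻¹' Ioi 0)).toReal ≤
        (volume (Ioo (15 / 16 : ℝ) 1)).toReal :=
          ENNReal.toReal_mono (by simp) (measure_mono hsub)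
      _ = 1 / 16 := by rw [Real.volume_Ioo]; norm_num
  linarith

lemma lawA_unbounded (s w : ℝ) : 0 < (lawA s).real (Iio w) := by
  rw [lawA_real s measurableSet_Iio]
  set M := |w| + 1 with hM
  have hM1 : 1 ≤ M := by have := abs_nonneg w; linarith
  set δ := min (1 / 16 : ℝ) (1 / M ^ 2) with hδ
  have hδ0 : 0 < δ := lt_min (by norm_num) (by positivity)
  have hsub : Ioo 0 δ ⊆ Ioo (0 : ℝ) 1 ∩ qA s ⁻¹' Iio w := by
    intro u hu
    have h1 : u < 1 / 16 := hu.2.trans_le (min_le_left _ _)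
    have h2 : u < 1 / M ^ 2 := hu.2.trans_le (min_le_right _ _)
    refine ⟨⟨hu.1, by linarith⟩, ?_⟩
    change qA s u < w
    simp only [qA, if_pos h1.le]
    have h3 : M < u ^ (-(1 / 2) : ℝ) := by
      rw [Real.rpow_neg hu.1.le, ← Real.sqrt_eq_rpow]
      have h4 : √u < 1 / M := by
        rw [Real.sqrt_lt' (by positivity), div_pow, one_pow]
        exact h2
      have h5 : 0 < √u := Real.sqrt_pos.2 hu.1
      rw [lt_inv_comm₀ (by positivity) h5]
      rwa [one_div] at h4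
    have h6 : -|w| ≤ w := neg_abs_le w
    have h7 := abs_nonneg w
    linarith
  have hpos : 0 < (volume (Ioo 0 δ)).toReal := by
    rw [Real.volume_Ioo, sub_zero, ENNReal.toReal_ofReal hδ0.le]
    exact hδ0
  refine hpos.trans_le (ENNReal.toReal_mono ?_ (measure_mono hsub))
  refine ne_top_of_le_ne_top ?_ (measure_mono inter_subset_left)
  simp

/-- the general example -/
theorem example_core {s a b : ℝ} (hs : 0 ≤ s) (hb : 0 < b) (e1 : -12 + s / 2 = a + b / 2)
    (e2 : -47 / 2 + s / 48 = a + b / 4) (ρ : Measure ℝ) [IsProbabilityMeasure ρ]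
    (hρ : Integrable id ρ) : ¬ InvLe 3 ((lawB a b).conv ρ) ((lawA s).conv ρ) := by
  refine core (integrable_lawA hs) (integrable_lawB a b) hb (integral_lawB a b) ?_ ?_ ?_
    (lawA_small hs) (lawA_unbounded s) ρ hρ
  · intro p hp
    rw [quantile_lawB hb.le hp]
    unfold qB
    split_ifs
    · exact le_rfl
    · linarith
  · rw [meanMin_lawA_one hs, meanMin_lawB_one hb.le, e1]
  · rw [meanMin_lawA_two hs, meanMin_lawB_two hb.le, e2]

end Q287.ISD
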