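import Pool.Agent.Q287.ISD.Basic

set_option autoImplicit false

namespace Q287.ISD

open MeasureTheory Set Filter Topology

/-- `E min(W, W')` for independent `W, W'` with law `m` -/
noncomputable def E2 (m : Measure ℝ) : ℝ := ∫ x, ∫ y, min x y ∂m ∂m

/-- `E max(y - x - w, 0)` -/
noncomputable def gg (m : Measure ℝ) (w : ℝ) : ℝ := ∫ x, ∫ y, max (y - x - w) 0 ∂m ∂m

lemma integral_quantile (m : Measure ℝ) [IsProbabilityMeasure m] {f : ℝ → ℝ}
    (hf : AEStronglyMeasurable f m) : ∫ x, f x ∂m = ∫ v in Ioo (0 : ℝ) 1, f (quantile m v) := by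
  have h := integral_map (aemeasurable_quantile m) (f := f) (by rw [map_quantile]; exact hf)
  rwa [map_quantile] at h

lemma intervalIntegrable_quantile (m : Measure ℝ) [IsProbabilityMeasure m] (hm : Integrable id m) :
    IntervalIntegrable (quantile m) volume 0 1 := by
  rw [intervalIntegrable_iff_integrableOn_Ioo_of_le zero_le_one]
  exact integrable_quantile m hm

lemma invCdf_three_one (m : Measure ℝ) [IsProbabilityMeasure m] (hm : Integrable id m) :
    invCdf m 3 1 = ∫ v in Ioo (0 : ℝ) 1, (1 - v) * quantile m v := by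
  rw [← integral_primitive (integrable_quantile m hm)]
  simp only [invCdf]
  rw [intervalIntegral.integral_of_le zero_le_one, integral_Ioc_eq_integral_Ioo]
  refine setIntegral_congr_fun measurableSet_Ioo fun u hu => ?_
  beta_reduce
  rw [intervalIntegral.integral_of_le hu.1.le]
  have e : ∀ v : ℝ, (if v ≤ u then quantile m v else 0) =
      (Iic u).indicator (quantile m) v := by
    intro v
    by_cases h : v ≤ u
    · rw [if_pos h, indicator_of_mem (show v ∈ Iic u from h)]
    · rw [if_neg h, indicator_of_notMem (show v ∉ Iic u from h)]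
  simp only [e]
  rw [setIntegral_indicator measurableSet_Iic]
  congr 2
  ext v
  simp only [mem_inter_iff, mem_Ioo, mem_Iic, mem_Ioc]
  constructor
  · rintro ⟨h1, h2⟩; exact ⟨⟨h1, h2.trans_lt hu.2⟩, h2⟩
  · rintro ⟨⟨h1, _⟩, h2⟩; exact ⟨h1, h2⟩

lemma meanMin_one (m : Measure ℝ) [IsProbabilityMeasure m] :
    meanMin m 1 = ∫ x, x ∂m := by
  unfold meanMin
  simp only [Nat.cast_one, one_mul, Nat.sub_self, pow_zero, mul_one]
  rw [intervalIntegral.integral_of_le zero_le_one, integral_Ioc_eq_integral_Ioo]
  exact (integral_quantile m (f := fun x => x) aestronglyMeasurable_id).symm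

lemma meanMin_two_eq (m : Measure ℝ) [IsProbabilityMeasure m] :
    meanMin m 2 = 2 * ∫ v in Ioo (0 : ℝ) 1, (1 - v) * quantile m v := by
  unfold meanMin
  rw [intervalIntegral.integral_of_le zero_le_one, integral_Ioc_eq_integral_Ioo]
  norm_num
  congr 1
  ext v
  ring

lemma E2_eq (m : Measure ℝ) [IsProbabilityMeasure m] (hm : Integrable id m) :
    E2 m = 2 * ∫ v in Ioo (0 : ℝ) 1, (1 - v) * quantile m v := by
  have hQ := integrable_quantile m hm
  have hin : ∀ x : ℝ, ∫ y, min x y ∂m = ∫ v in Ioo (0 : ℝ) 1, min x (quantile m v) := by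
    intro x
    exact integral_quantile m (f := fun y => min x y) (by fun_prop)
  unfold E2
  simp only [hin]
  rw [integral_quantile m]
  · have e1 : ∀ u ∈ Ioo (0 : ℝ) 1, ∫ v in Ioo (0 : ℝ) 1, min (quantile m u) (quantile m v) =
        (∫ v in Ioo (0 : ℝ) 1, if v ≤ u then quantile m v else 0) + (1 - u) * quantile m u := by
      intro u hu
      have e2 : ∀ v ∈ Ioo (0 : ℝ) 1, min (quantile m u) (quantile m v) =
          (if v ≤ u then quantile m v else 0) + (Ioi u).indicator (fun _ => quantile m u) v := by
        intro v hv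
        by_cases h : v ≤ u
        · rw [if_pos h, indicator_of_notMem (show v ∉ Ioi u from not_lt.2 h), add_zero,
            min_eq_right (quantile_monotoneOn m hv hu h)]
        · rw [if_neg h, indicator_of_mem (show v ∈ Ioi u from not_le.1 h), zero_add,
            min_eq_left (quantile_monotoneOn m hu hv (not_le.1 h).le)]
      rw [setIntegral_congr_fun measurableSet_Ioo e2, integral_add]
      · congr 1
        rw [setIntegral_indicator measurableSet_Ioi, setIntegral_const, smul_eq_mul]
        congr 1
        have : Ioo (0 : ℝ) 1 ∩ Ioi u = Ioo u 1 := by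
          ext v
          simp only [mem_inter_iff, mem_Ioo, mem_Ioi]
          constructor
          · rintro ⟨⟨_, h2⟩, h3⟩; exact ⟨h3, h2⟩
          · rintro ⟨h1, h2⟩; exact ⟨⟨hu.1.trans h1, h2⟩, h1⟩
        rw [this, measureReal_def, Real.volume_Ioo, ENNReal.toReal_ofReal (by linarith [hu.2])]
      · have : (fun v => if v ≤ u then quantile m v else 0) = (Iic u).indicator (quantile m) := by
          ext v
          by_cases h : v ≤ u
          · rw [if_pos h, indicator_of_mem (show v ∈ Iic u from h)]
          · rw [if_neg h, indicator_of_notMem (show v ∉ Iic u from h)]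
        rw [this]
        exact hQ.indicator measurableSet_Iic
      · exact (integrable_const _).indicator measurableSet_Ioi
    rw [setIntegral_congr_fun measurableSet_Ioo e1, integral_add, integral_primitive hQ]
    · ring
    · have h1 : Integrable (fun z : ℝ × ℝ => quantile m z.2) (lam.prod lam) := hQ.comp_snd lam
      have h2 := h1.indicator (measurableSet_le measurable_snd measurable_fst :
        MeasurableSet {z : ℝ × ℝ | z.2 ≤ z.1})
      refine h2.integral_prod_left.congr (Eventually.of_forall fun u => ?_)
      simp only [indicator, mem_ofPred_eq]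
    · refine hQ.bdd_mul (c := 1) (by fun_prop) ?_
      refine (ae_restrict_mem measurableSet_Ioo).mono fun u hu => ?_
      rw [Real.norm_eq_abs, abs_le]
      constructor <;> linarith [hu.1, hu.2]
  · -- measurability of the inner integral
    have : StronglyMeasurable (fun x : ℝ => ∫ v in Ioo (0 : ℝ) 1, min x (quantile m v)) := by
      have e : (fun x : ℝ => ∫ v in Ioo (0 : ℝ) 1, min x (quantile m v)) =
          fun x : ℝ => ∫ y, min x y ∂m := by
        funext x; exact (hin x).symm
      rw [e]
      exact StronglyMeasurable.integral_prod_right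
        (f := fun x y : ℝ => min x y) (by
          exact (measurable_fst.min measurable_snd).stronglyMeasurable)
    exact this.aestronglyMeasurable

lemma E2_eq_invCdf (m : Measure ℝ) [IsProbabilityMeasure m] (hm : Integrable id m) :
    E2 m = 2 * invCdf m 3 1 := by
  rw [E2_eq m hm, invCdf_three_one m hm]

lemma E2_eq_meanMin (m : Measure ℝ) [IsProbabilityMeasure m] (hm : Integrable id m) :
    E2 m = meanMin m 2 := by
  rw [E2_eq m hm, meanMin_two_eq]

/-- the third degree order gives the inequality at `p = 1` -/
lemma InvLe.E2_le {m m' : Measure ℝ} [IsProbabilityMeasure m] [IsProbabilityMeasure m']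
    (hm : Integrable id m) (hm' : Integrable id m') (h : InvLe 3 m m') : E2 m ≤ E2 m' := by
  have hc : ∀ μ : Measure ℝ, IsProbabilityMeasure μ → Integrable id μ →
      Tendsto (invCdf μ 3) (𝓝[<] 1) (𝓝 (invCdf μ 3 1)) := by
    intro μ hμ hi
    have h1 : ContinuousOn (invCdf μ 2) (Icc 0 1) := by
      have := intervalIntegral.continuousOn_primitive_interval
        (μ := volume) (f := quantile μ) (a := 0) (b := 1) (by
          have := intervalIntegrable_quantile μ hi
          rwa [intervalIntegrable_iff_integrableOn_Icc_of_le zero_le_one,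
            ← uIcc_of_le (zero_le_one' ℝ)] at this)
      rw [uIcc_of_le (zero_le_one' ℝ)] at this
      exact this
    have h2 : ContinuousOn (invCdf μ 3) (Icc 0 1) := by
      have h3 : IntervalIntegrable (invCdf μ 2) volume 0 1 := by
        apply ContinuousOn.intervalIntegrable
        rwa [uIcc_of_le (zero_le_one' ℝ)]
      have := intervalIntegral.continuousOn_primitive_interval
        (μ := volume) (f := invCdf μ 2) (a := 0) (b := 1) (by
          rwa [intervalIntegrable_iff_integrableOn_Icc_of_le zero_le_one,
            ← uIcc_of_le (zero_le_one' ℝ)] at h3)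
      rw [uIcc_of_le (zero_le_one' ℝ)] at this
      exact this
    have h4 := h2 1 ⟨zero_le_one, le_rfl⟩
    have h5 : Tendsto (invCdf μ 3) (𝓝[Ioo 0 1] 1) (𝓝 (invCdf μ 3 1)) :=
      (h4.mono Ioo_subset_Icc_self).tendsto
    rwa [nhdsWithin_Ioo_eq_nhdsLT zero_lt_one] at h5
  have h1 := hc m inferInstance hm
  have h2 := hc m' inferInstance hm'
  have h3 : invCdf m 3 1 ≤ invCdf m' 3 1 := by
    refine le_of_tendsto_of_tendsto h1 h2 ?_
    filter_upwards [Ioo_mem_nhdsLT (zero_lt_one' ℝ)] with p hp using h p hp
  rw [E2_eq_invCdf m hm, E2_eq_invCdf m' hm']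
  linarith

lemma integrable_conv {μ ρ : Measure ℝ} [IsProbabilityMeasure μ] [IsProbabilityMeasure ρ]
    (hμ : Integrable id μ) (hρ : Integrable id ρ) : Integrable id (μ.conv ρ) := by
  unfold Measure.conv
  rw [integrable_map_measure aestronglyMeasurable_id (by fun_prop)]
  exact (hμ.comp_fst ρ).add (hρ.comp_snd μ)

end Q287.ISD
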